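import Pool.Agent.KS6_47.VBI.Base

/-!
# The images of the virtual and of the pure virtual braid group under the virtual integral Burau
representation
-/

set_option autoImplicit false

namespace Pool.Agent.Results.MP_e5baee_al.PureImage

open Matrix Pool.Agent.KS6_47.VBI.Base

variable {m : ℕ}

/-- Reduction modulo `2`. -/
abbrev red (m : ℕ) : GL (Fin (m + 1)) ℤ →* GL (Fin (m + 1)) (ZMod 2) :=
  Matrix.GeneralLinearGroup.map (Int.castRingHom (ZMod 2))

/-- Both `σ_i` and `τ_i` act on the strands as the transposition `(i, i + 1)`. -/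
def sw : Fin m ⊕ Fin m → Equiv.Perm (Fin (m + 1))
  | .inl i => Equiv.swap i.castSucc i.succ
  | .inr i => Equiv.swap i.castSucc i.succ

theorem pGL_inj : Function.Injective (pGL (ι := Fin (m + 1)) (ZMod 2)) := by
  intro π ρ h
  ext y
  have h1 : pMat (ZMod 2) π (π y) y = pMat (ZMod 2) ρ (π y) y := by
    have := congrArg Units.val h
    exact congrFun (congrFun this (π y)) y
  unfold pMat at h1
  rw [if_pos rfl] at h1
  by_contra hne
  rw [if_neg (fun h2 => hne (congrArg Fin.val h2))] at h1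
  exact one_ne_zero h1

theorem red_pGL (π : Equiv.Perm (Fin (m + 1))) : red m (pGL ℤ π) = pGL (ZMod 2) π := by
  apply Units.ext
  ext x y
  change ((pMat ℤ π x y : ℤ) : ZMod 2) = pMat (ZMod 2) π x y
  unfold pMat
  split_ifs <;> simp

theorem rGL_apply {i j : Fin (m + 1)} (h : i ≠ j) (x y : Fin (m + 1)) :
    (rGL h).1 x y = if x = i then 2 * (1 : Matrix (Fin (m + 1)) (Fin (m + 1)) ℤ) j y
      - (1 : Matrix (Fin (m + 1)) (Fin (m + 1)) ℤ) i y
      else (1 : Matrix (Fin (m + 1)) (Fin (m + 1)) ℤ) x y := by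
  have := rGL_mul h 1 x y
  rwa [mul_one] at this

theorem red_rGL {i j : Fin (m + 1)} (h : i ≠ j) : red m (rGL h) = 1 := by
  apply Units.ext
  ext x y
  change (((rGL h).1 x y : ℤ) : ZMod 2) = _
  rw [rGL_apply]
  have h2 : (2 : ZMod 2) = 0 := rfl
  have h3 : ∀ a : ZMod 2, -a = a := by decide
  split_ifs with h1
  · subst h1
    simp [Matrix.one_apply, h2, h3]
  · simp [Matrix.one_apply]

theorem rGL_ones {i j : Fin (m + 1)} (h : i ≠ j) : (rGL h).1 *ᵥ 1 = 1 := by
  have hs : ∀ x, ∑ y, (1 : Matrix (Fin (m + 1)) (Fin (m + 1)) ℤ) x y = 1 := by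
    intro x; simp [Matrix.one_apply]
  funext x
  change ∑ y, (rGL h).1 x y * (1 : Fin (m + 1) → ℤ) y = 1
  simp only [Pi.one_apply, mul_one, rGL_apply]
  split_ifs
  · rw [Finset.sum_sub_distrib, ← Finset.mul_sum, hs, hs]; norm_num
  · exact hs x

theorem rGL_sq {i j : Fin (m + 1)} (h : i ≠ j) : rGL h * rGL h = 1 := by
  apply Units.ext
  ext x y
  rw [rGL_mul, rGL_apply, rGL_apply, rGL_apply]
  rw [Units.val_one]
  by_cases hx : x = i
  · subst hx
    simp [h.symm]
  · simp [hx]

theorem sGL_eq (i : Fin m) : sGL (cs_ne i) = rGL (cs_ne i) * tGL (cs_ne i) := by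
  unfold rGL
  rw [mul_assoc]
  have : tGL (cs_ne i) * tGL (cs_ne i) = 1 := Units.ext (tMat_tMat (cs_ne i))
  rw [this, mul_one]

theorem red_gen (x : Fin m ⊕ Fin m) : red m (gen x) = pGL (ZMod 2) (sw x) := by
  rcases x with i | i
  · change red m (sGL (cs_ne i)) = _
    rw [sGL_eq, map_mul, red_rGL, one_mul, tGL_eq, red_pGL]
    rfl
  · change red m (tGL (cs_ne i)) = _
    rw [tGL_eq, red_pGL]
    rfl

theorem sw_rel (r : FreeGroup (Fin m ⊕ Fin m)) (hr : Rel m r) :
    FreeGroup.lift (sw (m := m)) r = 1 := by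
  apply pGL_inj
  have h1 : (pGL (ZMod 2)).comp (FreeGroup.lift (sw (m := m))) =
      (red m).comp (FreeGroup.lift (gen (m := m))) := by
    apply FreeGroup.ext_hom
    intro a
    simp only [MonoidHom.comp_apply, FreeGroup.lift_apply_of]
    exact (red_gen a).symm
  have h2 := DFunLike.congr_fun h1 r
  simp only [MonoidHom.comp_apply] at h2
  rw [h2, gen_rel r hr, map_one, map_one]

/-- The homomorphism from the virtual braid group to the symmetric group. -/
def permHom (m : ℕ) : VB m →* Equiv.Perm (Fin (m + 1)) := PresentedGroup.toGroup (f := sw) sw_rel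

theorem red_rho (g : VB m) : red m (rho m g) = pGL (ZMod 2) (permHom m g) := by
  have h1 : (red m).comp (rho m) = (pGL (ZMod 2)).comp (permHom m) := by
    apply PresentedGroup.ext
    intro a
    simp only [MonoidHom.comp_apply]
    have e1 : rho m (PresentedGroup.of a) = gen a := PresentedGroup.toGroup.of _
    have e2 : permHom m (PresentedGroup.of a) = sw a := PresentedGroup.toGroup.of _
    rw [e1, e2, red_gen]
  exact DFunLike.congr_fun h1 g

theorem rho_inl (i : Fin m) : rho m (PresentedGroup.of (.inl i)) = sGL (cs_ne i) :=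
  PresentedGroup.toGroup.of _

theorem rho_inr (i : Fin m) : rho m (PresentedGroup.of (.inr i)) = tGL (cs_ne i) :=
  PresentedGroup.toGroup.of _

theorem rho_target (g : VB m) : rho m g ∈ target m := by
  have h' : (target m).comap (rho m) = ⊤ := by
    rw [eq_top_iff, ← PresentedGroup.closure_range_of, Subgroup.closure_le]
    rintro _ ⟨(i | i), rfl⟩
    · change rho m _ ∈ target m
      rw [rho_inl]; exact s_target i
    · change rho m _ ∈ target m
      rw [rho_inr]; exact t_target i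
  have : g ∈ (target m).comap (rho m) := by rw [h']; trivial
  exact this

theorem red_entry (M : GL (Fin (m + 1)) ℤ) (x y : Fin (m + 1)) :
    (red m M).1 x y = (M.1 x y : ZMod 2) := rfl

theorem mem_of_two (M : GL (Fin (m + 1)) ℤ) (h1 : M.1 *ᵥ 1 = 1)
    (π : Equiv.Perm (Fin (m + 1))) (h2 : red m M = pGL (ZMod 2) π) : M ∈ (rho m).range := by
  refine mem_of_cond (rho m).range (fun i => MonoidHom.mem_range.2 ⟨_, rho_inr i⟩)
    (fun i => MonoidHom.mem_range.2 ⟨_, rho_inl i⟩) M h1 π fun x y => ?_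
  rw [← red_entry, h2]
  rfl

/-- The image of the pure virtual braid group. -/
theorem pure_iff (M : GL (Fin (m + 1)) ℤ) :
    M ∈ Subgroup.map (rho m) (permHom m).ker ↔ M.1 *ᵥ 1 = 1 ∧ red m M = 1 := by
  constructor
  · rintro ⟨g, hg, rfl⟩
    refine ⟨(rho_target g).1, ?_⟩
    have hg' : permHom m g = 1 := hg
    rw [red_rho, hg', map_one]
  · rintro ⟨h1, h2⟩
    obtain ⟨g, rfl⟩ := mem_of_two M h1 1 (by rw [h2, map_one])
    refine ⟨g, ?_, rfl⟩
    change permHom m g = 1
    apply pGL_inj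
    rw [← red_rho, h2, map_one]

/-- The reflections generate. -/
theorem pure_closure : Subgroup.map (rho m) (permHom m).ker =
    Subgroup.closure {R | ∃ (i j : Fin (m + 1)) (h : i ≠ j), R = rGL h} := by
  apply le_antisymm
  · intro M hM
    rw [pure_iff] at hM
    refine mem_of_good
      (Subgroup.closure {R | ∃ (i j : Fin (m + 1)) (h : i ≠ j), R = rGL h})
      (fun i j h => Subgroup.subset_closure ⟨i, j, h, rfl⟩) m 0 (by omega) M
      ⟨fun x => ?_, fun x y => ?_, fun x y hy => absurd hy (Nat.not_lt_zero _)⟩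
    · have := congrFun hM.1 x
      simpa [Matrix.mulVec, dotProduct] using this
    · have h4 : (M.1 x y : ZMod 2) = (1 : Matrix (Fin (m + 1)) (Fin (m + 1)) (ZMod 2)) x y := by
        rw [← red_entry, hM.2]
        rfl
      have h5 : ((M.1 x y - (1 : Matrix (Fin (m + 1)) (Fin (m + 1)) ℤ) x y : ℤ) : ZMod 2)
          = 0 := by
        rw [Int.cast_sub, h4, Matrix.one_apply, Matrix.one_apply]
        split_ifs <;> simp
      exact (ZMod.intCast_zmod_eq_zero_iff_dvd _ 2).1 h5
  · rw [Subgroup.closure_le]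
    rintro _ ⟨i, j, h, rfl⟩
    exact (pure_iff _).2 ⟨rGL_ones h, red_rGL h⟩

/-- The stabiliser of the column vector `(1, …, 1)` in `GL_n(ℤ)`. -/
def stab (m : ℕ) : Subgroup (GL (Fin (m + 1)) ℤ) where
  carrier := {M | M.1 *ᵥ 1 = 1}
  one_mem' := by simp
  mul_mem' := by
    intro A B hA hB
    change (A * B).1 *ᵥ 1 = 1
    rw [Units.val_mul, ← Matrix.mulVec_mulVec, hB, hA]
  inv_mem' := by
    intro A hA
    change A⁻¹.1 *ᵥ 1 = 1
    calc A⁻¹.1 *ᵥ 1 = A⁻¹.1 *ᵥ (A.1 *ᵥ 1) := by rw [hA]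
      _ = 1 := by
        rw [Matrix.mulVec_mulVec, ← Units.val_mul, inv_mul_cancel, Units.val_one,
          Matrix.one_mulVec]

theorem pure_eq_inf : Subgroup.map (rho m) (permHom m).ker = stab m ⊓ (red m).ker := by
  ext M
  rw [pure_iff]
  rfl

theorem pGL_ones (π : Equiv.Perm (Fin (m + 1))) : (pGL ℤ π).1 *ᵥ 1 = 1 := by
  funext x
  change ∑ y, pMat ℤ π x y * (1 : Fin (m + 1) → ℤ) y = 1
  rw [Finset.sum_eq_single (π⁻¹ x)]
  · simp [pMat]
  · intro z _ hz
    have : x ≠ π z := by rintro rfl; simp at hz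
    simp [pMat, this]
  · simp

/-- `R` is the matrix of the point reflection `x_i ↦ 2 x_j - x_i`. -/
def IsReflection (R : GL (Fin (m + 1)) ℤ) (i j : Fin (m + 1)) : Prop :=
  i ≠ j ∧ ∀ x y, R.1 x y = if x = i then (if y = j then 2 else if y = i then -1 else 0)
    else if x = y then 1 else 0

theorem isReflection_iff (R : GL (Fin (m + 1)) ℤ) (i j : Fin (m + 1)) :
    IsReflection R i j ↔ ∃ h : i ≠ j, R = rGL h := by
  have key : ∀ h : i ≠ j, ∀ x y, (rGL h).1 x y =
      if x = i then (if y = j then 2 else if y = i then -1 else 0)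
        else if x = y then 1 else 0 := by
    intro h x y
    rw [rGL_apply]
    by_cases hx : x = i
    · simp only [hx, if_true, Matrix.one_apply]
      by_cases hy : y = j
      · subst hy; simp [h]
      · by_cases hy2 : y = i
        · subst hy2; simp [h.symm, h]
        · simp [hy, hy2, Ne.symm hy, Ne.symm hy2]
    · simp [hx, Matrix.one_apply]
  constructor
  · rintro ⟨h, hR⟩
    refine ⟨h, ?_⟩
    apply Units.ext
    ext x y
    rw [hR, key h]
  · rintro ⟨h, rfl⟩
    exact ⟨h, key h⟩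

/-- The permutation matrix of `π`, with entries `1` at the places `(π y, y)`. -/
def IsPermMatrix (P : GL (Fin (m + 1)) ℤ) (π : Equiv.Perm (Fin (m + 1))) : Prop :=
  ∀ x y, P.1 x y = if x = π y then 1 else 0

/-- The statement about a pair of homomorphisms `ρ : vB_n → GL_n(ℤ)`, `π : vB_n → S_n`. -/
def Description (ρ : VB m →* GL (Fin (m + 1)) ℤ) (π : VB m →* Equiv.Perm (Fin (m + 1))) : Prop :=
  -- the reduction modulo 2 of `ρ` is the permutation representation; row sums are one
  (∀ g, (ρ g).1 *ᵥ 1 = 1 ∧ ∀ x y, ((ρ g).1 x y : ZMod 2) = if x = π g y then 1 else 0) ∧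
  -- the image of the virtual braid group
  (∀ M : GL (Fin (m + 1)) ℤ, M ∈ ρ.range ↔ M.1 *ᵥ 1 = 1 ∧
    ∃ σ : Equiv.Perm (Fin (m + 1)), ∀ x y, (M.1 x y : ZMod 2) = if x = σ y then 1 else 0) ∧
  -- the image of the pure virtual braid group: the congruence subgroup of level two
  (∀ M : GL (Fin (m + 1)) ℤ, M ∈ Subgroup.map ρ π.ker ↔ M.1 *ᵥ 1 = 1 ∧
    ∀ x y, (M.1 x y : ZMod 2) = if x = y then 1 else 0) ∧
  -- it is generated by the `n (n - 1)` point reflections, which are involutions
  (Subgroup.map ρ π.ker = Subgroup.closure {R | ∃ i j, IsReflection R i j}) ∧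
  (∀ (R : GL (Fin (m + 1)) ℤ) (i j : Fin (m + 1)), IsReflection R i j → R * R = 1) ∧
  (∀ i j : Fin (m + 1), i ≠ j → ∃ R : GL (Fin (m + 1)) ℤ, IsReflection R i j) ∧
  -- it is normal and of finite index in the stabiliser of `(1, …, 1)`
  (∀ M N : GL (Fin (m + 1)) ℤ, M ∈ Subgroup.map ρ π.ker → N.1 *ᵥ 1 = 1 →
    N * M * N⁻¹ ∈ Subgroup.map ρ π.ker) ∧
  (Subgroup.map ρ π.ker).relIndex (stab m) ≠ 0 ∧
  -- semidirect product decomposition
  (∀ σ : Equiv.Perm (Fin (m + 1)), ∃ P : GL (Fin (m + 1)) ℤ, IsPermMatrix P σ ∧ P ∈ ρ.range) ∧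
  (∀ M : GL (Fin (m + 1)) ℤ, M ∈ ρ.range → ∃! p : GL (Fin (m + 1)) ℤ × GL (Fin (m + 1)) ℤ,
    p.1 ∈ Subgroup.map ρ π.ker ∧ (∃ σ, IsPermMatrix p.2 σ) ∧ M = p.1 * p.2) ∧
  -- the kernel consists of pure virtual braids
  ρ.ker ≤ π.ker

theorem isPerm_iff (P : GL (Fin (m + 1)) ℤ) (σ : Equiv.Perm (Fin (m + 1))) :
    IsPermMatrix P σ ↔ P = pGL ℤ σ := by
  constructor
  · intro h
    apply Units.ext
    ext x y
    rw [h x y]
    rfl
  · rintro rfl x y
    rfl

theorem red_one_iff (M : GL (Fin (m + 1)) ℤ) :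
    red m M = 1 ↔ ∀ x y, (M.1 x y : ZMod 2) = if x = y then 1 else 0 := by
  constructor
  · intro h x y
    rw [← red_entry, h, Units.val_one, Matrix.one_apply]
  · intro h
    apply Units.ext
    ext x y
    rw [red_entry, h x y, Units.val_one, Matrix.one_apply]

theorem description (m : ℕ) : Description (rho m) (permHom m) := by
  have pure' : ∀ M : GL (Fin (m + 1)) ℤ, M ∈ Subgroup.map (rho m) (permHom m).ker ↔
      M.1 *ᵥ 1 = 1 ∧ ∀ x y, (M.1 x y : ZMod 2) = if x = y then 1 else 0 := by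
    intro M
    rw [pure_iff, red_one_iff]
  have hset : {R : GL (Fin (m + 1)) ℤ | ∃ i j, IsReflection R i j} =
      {R | ∃ (i j : Fin (m + 1)) (h : i ≠ j), R = rGL h} := by
    ext R
    simp only [Set.mem_ofPred_eq, isReflection_iff]
  have hperm : ∀ σ : Equiv.Perm (Fin (m + 1)), pGL ℤ σ ∈ (rho m).range := fun σ =>
    perm_mem _ (fun i => MonoidHom.mem_range.2 ⟨_, rho_inr i⟩) σ
  refine ⟨fun g => ⟨(rho_target g).1, fun x y => ?_⟩, fun M => ⟨?_, ?_⟩, pure', ?_, ?_, ?_, ?_, ?_,
    ?_, ?_, ?_⟩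
  · rw [← red_entry, red_rho]
    rfl
  · rintro ⟨g, rfl⟩
    refine ⟨(rho_target g).1, permHom m g, fun x y => ?_⟩
    rw [← red_entry, red_rho]
    rfl
  · rintro ⟨h1, σ, hσ⟩
    refine mem_of_two M h1 σ ?_
    apply Units.ext
    ext x y
    rw [red_entry, hσ x y]
    rfl
  · rw [hset]
    exact pure_closure
  · intro R i j hR
    obtain ⟨h, rfl⟩ := (isReflection_iff R i j).1 hR
    exact rGL_sq h
  · intro i j h
    exact ⟨rGL h, (isReflection_iff _ i j).2 ⟨h, rfl⟩⟩
  · intro M N hM hN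
    rw [pure_iff] at hM ⊢
    have hN' : N ∈ stab m := hN
    have hM' : M ∈ stab m := hM.1
    refine ⟨(stab m).mul_mem ((stab m).mul_mem hN' hM') ((stab m).inv_mem hN'), ?_⟩
    rw [map_mul, map_mul, map_inv, hM.2, mul_one, mul_inv_cancel]
  · rw [pure_eq_inf, Subgroup.inf_relIndex_left]
    have hfin : (red m).ker.FiniteIndex := by infer_instance
    intro h0
    have h1 : (red m).ker.relIndex ⊤ = 0 := Subgroup.relIndex_eq_zero_of_le_right le_top h0
    rw [Subgroup.relIndex_top_right] at h1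
    exact hfin.index_ne_zero h1
  · intro σ
    exact ⟨pGL ℤ σ, (isPerm_iff _ _).2 rfl, hperm σ⟩
  · rintro M ⟨g, rfl⟩
    refine ⟨(rho m g * (pGL ℤ (permHom m g))⁻¹, pGL ℤ (permHom m g)), ⟨?_, ⟨_, (isPerm_iff _ _).2 rfl⟩,
      by simp⟩, ?_⟩
    · rw [pure_iff]
      refine ⟨(stab m).mul_mem (rho_target g).1 ((stab m).inv_mem (pGL_ones _)), ?_⟩
      rw [map_mul, map_inv, red_rho, red_pGL, mul_inv_cancel]
    · rintro ⟨A, P⟩ ⟨hA, ⟨σ, hP⟩, hM⟩
      simp only at hA hP hM
      rw [isPerm_iff] at hP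
      subst hP
      rw [pure_iff] at hA
      have h1 : σ = permHom m g := by
        apply pGL_inj
        rw [← red_rho, hM, map_mul, hA.2, one_mul, red_pGL]
      subst h1
      refine Prod.ext ?_ rfl
      simp only
      rw [hM, mul_inv_cancel_right]
  · intro g hg
    change permHom m g = 1
    have hg' : rho m g = 1 := hg
    apply pGL_inj
    rw [← red_rho, hg', map_one, map_one]

/-- **The images of the virtual and of the pure virtual braid group.** On `n = m + 1` strands there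
are exactly one homomorphism `ρ : vB_n → GL_n(ℤ)` and exactly one homomorphism `π : vB_n → S_n` with
the prescribed values on the generators. `ρ(vB_n)` is the group of all `M ∈ GL_n(ℤ)` with
`M (1, …, 1)ᵗ = (1, …, 1)ᵗ` whose reduction modulo `2` is a permutation matrix; this permutation
matrix is that of `π`. The image of the pure virtual braid group `ker π` is the level two congruence
subgroup of the stabiliser of `(1, …, 1)ᵗ`; it is generated by the `n (n - 1)` involutions
`x_i ↦ 2 x_j - x_i`, it is normal and of finite index in this stabiliser, and `ρ(vB_n)` is its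
semidirect product with the permutation matrices. The kernel of `ρ` is contained in the pure
virtual braid group. -/
theorem result (m : ℕ) :
    ∃ (ρ : VB m →* GL (Fin (m + 1)) ℤ) (π : VB m →* Equiv.Perm (Fin (m + 1))),
      (∀ i : Fin m, (ρ (PresentedGroup.of (.inl i))).1 = sMat i.castSucc i.succ) ∧
      (∀ i : Fin m, (ρ (PresentedGroup.of (.inr i))).1 = tMat i.castSucc i.succ) ∧
      (∀ ρ' : VB m →* GL (Fin (m + 1)) ℤ,
        (∀ i : Fin m, (ρ' (PresentedGroup.of (.inl i))).1 = sMat i.castSucc i.succ) →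
        (∀ i : Fin m, (ρ' (PresentedGroup.of (.inr i))).1 = tMat i.castSucc i.succ) → ρ' = ρ) ∧
      (∀ i : Fin m, π (PresentedGroup.of (.inl i)) = Equiv.swap i.castSucc i.succ) ∧
      (∀ i : Fin m, π (PresentedGroup.of (.inr i)) = Equiv.swap i.castSucc i.succ) ∧
      (∀ π' : VB m →* Equiv.Perm (Fin (m + 1)),
        (∀ i : Fin m, π' (PresentedGroup.of (.inl i)) = Equiv.swap i.castSucc i.succ) →
        (∀ i : Fin m, π' (PresentedGroup.of (.inr i)) = Equiv.swap i.castSucc i.succ) → π' = π) ∧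
      Description ρ π := by
  refine ⟨rho m, permHom m, fun i => by rw [rho_inl]; rfl, fun i => by rw [rho_inr]; rfl, ?_,
    fun i => PresentedGroup.toGroup.of _, fun i => PresentedGroup.toGroup.of _, ?_, description m⟩
  · intro ρ' h1 h2
    apply PresentedGroup.ext
    rintro (i | i)
    · apply Units.ext; rw [h1, rho_inl]; rfl
    · apply Units.ext; rw [h2, rho_inr]; rfl
  · intro π' h1 h2
    apply PresentedGroup.ext
    rintro (i | i)
    · rw [h1]
      exact (PresentedGroup.toGroup.of (f := sw) (x := (Sum.inl i : Fin m ⊕ Fin m)) sw_rel).symm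
    · rw [h2]
      exact (PresentedGroup.toGroup.of (f := sw) (x := (Sum.inr i : Fin m ⊕ Fin m)) sw_rel).symm

end Pool.Agent.Results.MP_e5baee_al.PureImage
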